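import Mathlib
import Pool.Agent.H27.ChainBound2

set_option autoImplicit false

namespace Pool.Agent.Results.MP_2f4300_al.OpenNilpotent

universe u

/-- `τ 0, τ 1, …, τ k` is a non-refinable chain of length `k` in the lattice of group topologies:
each `τ (i+1)` is strictly finer than `τ i` and no group topology lies strictly between them.
(In Mathlib's order on `GroupTopology G`, `σ < τ` says that `σ` is strictly finer than `τ`.) -/
def IsNonrefinableChain {G : Type u} [Group G] (k : ℕ) (τ : ℕ → GroupTopology G) : Prop :=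
  ∀ i < k, τ (i + 1) < τ i ∧ ∀ σ : GroupTopology G, ¬ (τ (i + 1) < σ ∧ σ < τ i)

/-- Some neighbourhood `V` of `1` in the group topology `t` is covered by finitely many cosets of
a nilpotent normal subgroup `N` of `G`. -/
def IsNilpotentNearOne {G : Type u} [Group G] (t : GroupTopology G) : Prop :=
  ∃ N : Subgroup G, N.Normal ∧ Group.IsNilpotent N ∧
    ∃ V ∈ @nhds G t.toTopologicalSpace 1, ∃ F : Set G, F.Finite ∧ ∀ u ∈ V, ∃ f ∈ F, f⁻¹ * u ∈ N

lemma cov_of_chain {G : Type u} [Group G] (m : ℕ) (τ : ℕ → GroupTopology G)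
    (h : IsNonrefinableChain m τ) : Pool.Agent.H27.Chains.Cov m (τ m) (τ 0) := by
  induction m with
  | zero => exact Pool.Agent.H27.Chains.Cov.zero _
  | succ m ih =>
    refine Pool.Agent.H27.Chains.Cov.succ (b := τ m) ⟨(h m (Nat.lt_succ_self m)).1, ?_⟩
      (ih fun i hi => h i (hi.trans (Nat.lt_succ_self m)))
    intro σ h1 h2
    exact (h m (Nat.lt_succ_self m)).2 σ ⟨h1, h2⟩

theorem bound {G : Type u} [Group G] (k : ℕ) (τ : ℕ → GroupTopology G)
    (hG : IsNilpotentNearOne (τ 0)) (h : IsNonrefinableChain k τ) (C : Set (GroupTopology G))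
    (hC : IsChain (· ≤ ·) C) (hb : ∀ σ ∈ C, τ k ≤ σ ∧ σ ≤ τ 0) :
    C.Finite ∧ C.ncard ≤ k + 1 := by
  obtain ⟨N, hn, hnil, V, hV, F, hF, hVF⟩ := hG
  exact Pool.Agent.H27.Chains.chain_bound (fun n hs =>
    Pool.Agent.H27.NilTop.bound_open N F V hF hV hVF (cov_of_chain k τ h) hs) C hC hb

theorem result :
    -- if some neighbourhood of `1` in `τ 0` is covered by finitely many cosets of a nilpotent
    -- normal subgroup, then all chains of group topologies between the ends of a non-refinable
    -- chain `τ 0 < ⋯ < τ k` have at most `k + 1` members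
    (∀ (G : Type u) [Group G] (k : ℕ) (τ : ℕ → GroupTopology G), IsNilpotentNearOne (τ 0) →
      IsNonrefinableChain k τ → ∀ C : Set (GroupTopology G), IsChain (· ≤ ·) C →
      (∀ σ ∈ C, τ k ≤ σ ∧ σ ≤ τ 0) → C.Finite ∧ C.ncard ≤ k + 1) ∧
    -- this covers every topology having a nilpotent normal subgroup as an open set
    (∀ (G : Type u) [Group G] (t : GroupTopology G) (N : Subgroup G), N.Normal →
      Group.IsNilpotent N → @IsOpen G t.toTopologicalSpace (N : Set G) → IsNilpotentNearOne t) ∧
    -- and every group topology on a group that has a nilpotent subgroup of finite index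
    (∀ (G : Type u) [Group G] (t : GroupTopology G) (N : Subgroup G), N.FiniteIndex →
      Group.IsNilpotent N → IsNilpotentNearOne t) := by
  refine ⟨fun G _ k τ hG h C hC hb => bound k τ hG h C hC hb, ?_, ?_⟩
  · intro G _ t N hn hnil ho
    refine ⟨N, hn, hnil, N, ?_, {1}, Set.finite_singleton 1, ?_⟩
    · let := t.toTopologicalSpace
      exact IsOpen.mem_nhds ho N.one_mem
    · intro u hu
      exact ⟨1, rfl, by simpa using hu⟩
  · intro G _ t N hf hnil
    have hfc : N.normalCore.FiniteIndex := inferInstance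
    have hle : N.normalCore ≤ N := N.normalCore_le
    have hnil' : Group.IsNilpotent N.normalCore :=
      (Group.isNilpotent_congr (Subgroup.subgroupOfEquivOfLe hle)).1 inferInstance
    refine ⟨N.normalCore, inferInstance, hnil', Set.univ, Filter.univ_mem,
      Set.range (fun q : G ⧸ N.normalCore => q.out), ?_, ?_⟩
    · have : Finite (G ⧸ N.normalCore) := inferInstance
      exact Set.finite_range _
    · intro u _
      refine ⟨_, ⟨(u : G ⧸ N.normalCore), rfl⟩, ?_⟩
      rw [← QuotientGroup.eq]
      simp

end Pool.Agent.Results.MP_2f4300_al.OpenNilpotent
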