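import Mathlib
import Pool.Agent.H27.VNilTop

set_option autoImplicit false

namespace Pool.Agent.Results.MP_2f4300_al.VirtuallyNilpotent

universe u

/-- `τ 0, τ 1, …, τ k` is a non-refinable chain of length `k` in the lattice of group topologies:
each `τ (i+1)` is strictly finer than `τ i` and no group topology lies strictly between them.
(In Mathlib's order on `GroupTopology G`, `σ < τ` says that `σ` is strictly finer than `τ`.) -/
def IsNonrefinableChain {G : Type u} [Group G] (k : ℕ) (τ : ℕ → GroupTopology G) : Prop :=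
  ∀ i < k, τ (i + 1) < τ i ∧ ∀ σ : GroupTopology G, ¬ (τ (i + 1) < σ ∧ σ < τ i)

/-- All members `τ 0, …, τ k` of the chain are Hausdorff. -/
def IsHausdorffChain {G : Type u} [Group G] (k : ℕ) (τ : ℕ → GroupTopology G) : Prop :=
  ∀ i ≤ k, @T2Space G (τ i).toTopologicalSpace

/-- `G` has a nilpotent subgroup of finite index. -/
def IsVirtuallyNilpotent (G : Type u) [Group G] : Prop :=
  ∃ N : Subgroup G, N.FiniteIndex ∧ Group.IsNilpotent N

/-- `G` is an example as asked for in Q1: a countable infinite group that carries a finite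
non-refinable chain `τ 0 < ⋯ < τ k` of Hausdorff group topologies and an infinite chain of group
topologies strictly between `τ 0` and `τ k`. -/
def IsExample (G : Type u) [Group G] : Prop :=
  Countable G ∧ Infinite G ∧ ∃ (k : ℕ) (τ : ℕ → GroupTopology G),
    IsNonrefinableChain k τ ∧ IsHausdorffChain k τ ∧
      ∃ C : Set (GroupTopology G), IsChain (· ≤ ·) C ∧ C.Infinite ∧
        ∀ σ ∈ C, τ k < σ ∧ σ < τ 0

lemma cov_of_chain {G : Type u} [Group G] (m : ℕ) (τ : ℕ → GroupTopology G)
    (h : IsNonrefinableChain m τ) : Pool.Agent.H27.Chains.Cov m (τ m) (τ 0) := by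
  induction m with
  | zero => exact Pool.Agent.H27.Chains.Cov.zero _
  | succ m ih =>
    refine Pool.Agent.H27.Chains.Cov.succ (b := τ m) ⟨(h m (Nat.lt_succ_self m)).1, ?_⟩
      (ih fun i hi => h i (hi.trans (Nat.lt_succ_self m)))
    intro σ h1 h2
    exact (h m (Nat.lt_succ_self m)).2 σ ⟨h1, h2⟩

theorem bound {G : Type u} [Group G] (hG : IsVirtuallyNilpotent G) (k : ℕ)
    (τ : ℕ → GroupTopology G) (h : IsNonrefinableChain k τ) (C : Set (GroupTopology G))
    (hC : IsChain (· ≤ ·) C) (hb : ∀ σ ∈ C, τ k ≤ σ ∧ σ ≤ τ 0) :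
    C.Finite ∧ C.ncard ≤ k + 1 := by
  obtain ⟨N, hf, hn⟩ := hG
  have : N.normalCore.FiniteIndex := inferInstance
  have hle : N.normalCore ≤ N := N.normalCore_le
  have hnil : Group.IsNilpotent N.normalCore :=
    (Group.isNilpotent_congr (Subgroup.subgroupOfEquivOfLe hle)).1 inferInstance
  exact Pool.Agent.H27.Chains.chain_bound (fun n hs =>
    Pool.Agent.H27.NilTop.bound_vnil' N.normalCore (cov_of_chain k τ h) hs) C hC hb

theorem result :
    -- for every group with a nilpotent subgroup of finite index: all chains of group topologies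
    -- between the ends of a non-refinable chain of length `k` have at most `k + 1` members
    (∀ (G : Type u) [Group G], IsVirtuallyNilpotent G → ∀ (k : ℕ) (τ : ℕ → GroupTopology G),
      IsNonrefinableChain k τ → ∀ C : Set (GroupTopology G), IsChain (· ≤ ·) C →
      (∀ σ ∈ C, τ k ≤ σ ∧ σ ≤ τ 0) → C.Finite ∧ C.ncard ≤ k + 1) ∧
    -- hence no group with a nilpotent subgroup of finite index is an example as asked for in Q1
    (∀ (G : Type u) [Group G], IsExample G → ¬ IsVirtuallyNilpotent G) := by
  refine ⟨fun G _ hG k τ h C hC hb => bound hG k τ h C hC hb, ?_⟩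
  rintro G _ ⟨_, _, k, τ, h, _, C, hC, hinf, hb⟩ hG
  exact hinf (bound hG k τ h C hC fun σ hσ => ⟨(hb σ hσ).1.le, (hb σ hσ).2.le⟩).1

end Pool.Agent.Results.MP_2f4300_al.VirtuallyNilpotent
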